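import Pool.Agent.Helper95.VB4.Cyclic

/-!
Kernel friendly checks of cyclic base blocks and of explicit designs.
-/

set_option autoImplicit false

namespace Pool.Agent.Helper95.VB4

open Pool.Agent.Helper52.VB

def cnt (m : ℕ) (L : List ℕ) : ℕ :=
  List.rec (motive := fun _ => ℕ) 0
    (fun x _ ih => Bool.rec (motive := fun _ => ℕ) ih (ih + 1) (Nat.beq x m)) L

theorem cnt_eq (m : ℕ) (L : List ℕ) : cnt m L = List.count m L := by
  induction L with
  | nil => rfl
  | cons x L ih =>
    have h : cnt m (x :: L) = Bool.rec (motive := fun _ => ℕ) (cnt m L) (cnt m L + 1) (Nat.beq x m) := rfl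
    rw [h, List.count_cons, ih]
    by_cases hx : x = m
    · have : Nat.beq x m = true := Nat.beq_eq ▸ hx
      rw [this, if_pos (by simpa using hx)]
    · have : Nat.beq x m = false := by
        rw [Bool.eq_false_iff]
        intro h'
        exact hx (Nat.beq_eq ▸ h')
      rw [this, if_neg (by simpa using hx), add_zero]

/-- decoding of a base block: `(0, a, b, c)` -/
def dec (c : ℕ) : ℕ × ℕ × ℕ × ℕ := (0, c / 1048576, c / 1024 % 1024, c % 1024)

def okB (v c : ℕ) : Bool :=
  Nat.blt (c / 1048576) v && (Nat.blt (c / 1024 % 1024) v && (Nat.blt (c % 1024) v && Nat.blt 0 (c % 1024)))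

def okL (v : ℕ) (L : List ℕ) : Bool :=
  List.rec (motive := fun _ => Bool) true (fun c _ ih => okB v c && ih) L

/-- the smaller one of a difference and its negative -/
def fo (v x : ℕ) : ℕ := Bool.rec (motive := fun _ => ℕ) (v - x) x (Nat.ble (2 * x) v)

def dl (v : ℕ) (L : List ℕ) : List ℕ :=
  List.rec (motive := fun _ => List ℕ) [] (fun c _ ih => fo v (df v 0 (c / 1048576)) ::
    fo v (df v 0 (c / 1024 % 1024)) :: fo v (df v 0 (c % 1024)) ::
    fo v (df v (c / 1048576) (c / 1024 % 1024)) ::
    fo v (df v (c / 1048576) (c % 1024)) :: fo v (df v (c / 1024 % 1024) (c % 1024)) :: ih) L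

def test (v : ℕ) (D : List ℕ) (n : ℕ) : Bool :=
  Nat.rec (motive := fun _ => Bool) true (fun m ih =>
    Bool.rec (motive := fun _ => Bool) false ih
      (Nat.beq (cnt (m + 1) D) (Bool.rec (motive := fun _ => ℕ) 2 1 (Nat.beq (2 * (m + 1)) v)))) n

def chk (v : ℕ) (L : List ℕ) : Bool := okL v L && test v (dl v L) (v / 2)

theorem okL_spec {v : ℕ} : ∀ {L : List ℕ}, okL v L = true → ∀ c ∈ L, okB v c = true := by
  intro L
  induction L with
  | nil => intro _ c hc; simp at hc
  | cons x L ih =>
    intro h c hc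
    have h' : (okB v x && okL v L) = true := h
    rw [Bool.and_eq_true] at h'
    rcases List.mem_cons.1 hc with rfl | hc
    · exact h'.1
    · exact ih h'.2 c hc

theorem test_spec {v : ℕ} {D : List ℕ} : ∀ {n : ℕ}, test v D n = true → ∀ m, 1 ≤ m → m ≤ n →
    List.count m D = if 2 * m = v then 1 else 2 := by
  intro n
  induction n with
  | zero => intro _ m h1 h2; omega
  | succ n ih =>
    intro h m h1 h2
    have h' : Bool.rec (motive := fun _ => Bool) false (test v D n)
      (Nat.beq (cnt (n + 1) D) (Bool.rec (motive := fun _ => ℕ) 2 1 (Nat.beq (2 * (n + 1)) v))) = true := h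
    cases hb : Nat.beq (cnt (n + 1) D) (Bool.rec (motive := fun _ => ℕ) 2 1 (Nat.beq (2 * (n + 1)) v)) with
    | false => rw [hb] at h'; exact absurd (show false = true from h') (by decide)
    | true =>
      rw [hb] at h'
      have hb' := Nat.eq_of_beq_eq_true hb
      rw [cnt_eq] at hb'
      rcases Nat.lt_or_ge n m with hm | hm
      · have hmn : m = n + 1 := by omega
        rw [hmn, hb']
        by_cases hc : 2 * (n + 1) = v
        · have : Nat.beq (2 * (n + 1)) v = true := Nat.beq_eq ▸ hc
          rw [this, if_pos hc]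
        · have : Nat.beq (2 * (n + 1)) v = false := by
            rw [Bool.eq_false_iff]
            intro h''
            exact hc (Nat.beq_eq ▸ h'')
          rw [this, if_neg hc]
      · exact ih h' m h1 hm

theorem fo_eq (v x : ℕ) : fo v x = if 2 * x ≤ v then x else v - x := by
  by_cases h : 2 * x ≤ v
  · have : Nat.ble (2 * x) v = true := Nat.ble_eq ▸ h
    rw [fo, this, if_pos h]
  · have : Nat.ble (2 * x) v = false := by
      rw [Bool.eq_false_iff]
      intro h'
      exact h (Nat.ble_eq ▸ h')
    rw [fo, this, if_neg h]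

/-- all differences -/
def dl0 (v : ℕ) (L : List ℕ) : List ℕ := L.flatMap fun c => dfs v (dec c)

theorem dl_eq (v : ℕ) (L : List ℕ) : dl v L = (dl0 v L).map (fo v) := by
  induction L with
  | nil => rfl
  | cons c L ih =>
    have h : dl v (c :: L) = (dfs v (dec c)).map (fo v) ++ dl v L := rfl
    have h0 : dl0 v (c :: L) = dfs v (dec c) ++ dl0 v L := rfl
    rw [h, ih, h0, List.map_append]

theorem dl0_lt {v : ℕ} (hv : v ≠ 0) (L : List ℕ) : ∀ x ∈ dl0 v L, x < v := by
  intro x hx
  rw [dl0, List.mem_flatMap] at hx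
  obtain ⟨c, -, hc⟩ := hx
  have : ∀ a b, df v a b < v := fun a b => Nat.mod_lt _ (Nat.pos_of_ne_zero hv)
  simp only [dfs, List.mem_cons, List.not_mem_nil, or_false] at hc
  rcases hc with rfl | rfl | rfl | rfl | rfl | rfl <;> exact this _ _

theorem count_fo {v m : ℕ} (h1 : 1 ≤ m) (h2 : 2 * m ≤ v) : ∀ (L : List ℕ), (∀ x ∈ L, x < v) →
    List.count m L + List.count (v - m) L =
      if 2 * m = v then 2 * List.count m (L.map (fo v)) else List.count m (L.map (fo v)) := by
  intro L
  induction L with
  | nil => intro _; simp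
  | cons x L ih =>
    intro hL
    have hx := hL x List.mem_cons_self
    have ih' := ih fun y hy => hL y (List.mem_cons_of_mem _ hy)
    have hf := fo_eq v x
    simp only [List.map_cons, List.count_cons, beq_iff_eq]
    split_ifs at ih' hf ⊢ <;> omega

theorem count_dl0 (v m : ℕ) (L : List ℕ) :
    List.count m (dl0 v L) = (L.map fun c => List.count m (dfs v (dec c))).sum := by
  induction L with
  | nil => rfl
  | cons c L ih =>
    have h0 : dl0 v (c :: L) = dfs v (dec c) ++ dl0 v L := rfl
    rw [h0, List.count_append, List.map_cons, List.sum_cons, ← ih]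

theorem counts {v : ℕ} (hv : v ≠ 0) {L : List ℕ} (h : test v (dl v L) (v / 2) = true) {m : ℕ} (h1 : 1 ≤ m)
    (h2 : m ≤ v / 2) : List.count m (dl0 v L) + List.count (v - m) (dl0 v L) = 2 := by
  rw [count_fo h1 (by omega) _ (dl0_lt hv L), ← dl_eq, test_spec h m h1 h2]
  split_ifs <;> rfl

theorem has_of_chk {v : ℕ} (hv : v ≠ 0) (L : List ℕ) (h : chk v L = true) : Has 4 2 (Fin v) := by
  haveI : NeZero v := ⟨hv⟩
  rw [chk, Bool.and_eq_true] at h
  obtain ⟨hok, ht⟩ := h
  have hok' := okL_spec hok
  have hB : ∀ c ∈ L, (dec c).2.1 < v ∧ (dec c).2.2.1 < v ∧ (dec c).2.2.2 < v ∧ 0 < (dec c).2.2.2 := by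
    intro c hc
    have := hok' c hc
    rw [okB, Bool.and_eq_true, Bool.and_eq_true, Bool.and_eq_true, Nat.blt_eq, Nat.blt_eq, Nat.blt_eq,
      Nat.blt_eq] at this
    exact ⟨this.1, this.2.1, this.2.2.1, this.2.2.2⟩
  have main : Has 4 2 (ZMod v) := by
    refine cyclic (by norm_num) ((L.map fun c => blk v (dec c) : List (Multiset (ZMod v))) : Multiset (Multiset (ZMod v)))
      ?_ ?_
    · intro B hBm
      rw [Multiset.mem_coe, List.mem_map] at hBm
      obtain ⟨c, hc, rfl⟩ := hBm
      obtain ⟨_, _, h3, h4⟩ := hB c hc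
      refine ⟨by simp [blk], ?_⟩
      intro x hx
      have m1 : ((dec c).1 : ZMod v) ∈ blk v (dec c) := by simp [blk]
      have m2 : ((dec c).2.2.2 : ZMod v) ∈ blk v (dec c) := by simp [blk]
      rw [hx, Multiset.mem_replicate] at m1 m2
      have e : (((dec c).2.2.2 : ℕ) : ZMod v) = ((0 : ℕ) : ZMod v) := m2.2.trans m1.2.symm
      have e2 := congrArg ZMod.val e
      rw [ZMod.val_natCast, ZMod.val_natCast, Nat.mod_eq_of_lt h3, Nat.zero_mod] at e2
      omega
    · intro d hd
      have hlt : d.val < v := ZMod.val_lt d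
      have h0 : d.val ≠ 0 := fun h => hd ((ZMod.val_eq_zero d).1 h)
      rw [Multiset.map_coe, Multiset.sum_coe, List.map_map]
      have e : ((L.map ((fun B => dif B d) ∘ fun c => blk v (dec c)))).sum =
          List.count d.val (dl0 v L) + List.count (v - d.val) (dl0 v L) := by
        rw [count_dl0, count_dl0, ← List.sum_map_add]
        congr 1
        refine List.map_congr_left fun c hc => ?_
        obtain ⟨h1, h2, _, _⟩ := hB c hc
        exact dif_blk (B := dec c) (Nat.pos_of_ne_zero hv) h1 h2 hd
      rw [e]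
      rcases Nat.lt_or_ge (v / 2) d.val with h | h
      · have := counts hv ht (m := v - d.val) (by omega) (by omega)
        rw [show v - (v - d.val) = d.val by omega] at this
        omega
      · exact counts hv ht (by omega) h
  exact main.equiv (by norm_num) (ZMod.finEquiv v).symm.toEquiv

end Pool.Agent.Helper95.VB4
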