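import Pool.Agent.Helper95.VB4.Glue

/-!
Cyclic variance-balanced designs with block size 4 and concurrence 2 from base blocks.
-/

set_option autoImplicit false

namespace Pool.Agent.Helper95.VB4

open Pool.Agent.Helper52.VB

theorem sum_count_mul {V : Type} [DecidableEq V] [Fintype V] (B : Multiset V) (f : V → ℕ) :
    ∑ s : V, B.count s * f s = (B.map f).sum := by
  induction B using Multiset.induction_on with
  | empty => simp
  | cons a B ih =>
    have h : ∀ s : V, (a ::ₘ B).count s * f s = (if s = a then f s else 0) + B.count s * f s := by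
      intro s
      rw [Multiset.count_cons]
      split_ifs with h
      · ring
      · ring
    rw [Finset.sum_congr rfl fun s _ => h s, Finset.sum_add_distrib, ih, Multiset.map_cons,
      Multiset.sum_cons, Finset.sum_ite_eq' Finset.univ a f, if_pos (Finset.mem_univ a)]

variable {v : ℕ} [NeZero v]

/-- number of ordered pairs of points of the base block with difference `d` -/
def dif (B : Multiset (ZMod v)) (d : ZMod v) : ℕ := (B.map fun b => B.count (b + d)).sum

theorem conc_shift (F : Multiset (Multiset (ZMod v))) (d : ZMod v) :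
    ∑ s : ZMod v, conc F s (s + d) = (F.map fun B => dif B d).sum := by
  induction F using Multiset.induction_on with
  | empty => simp [conc]
  | cons B F ih =>
    have h : ∀ s : ZMod v, conc (B ::ₘ F) s (s + d) = B.count s * B.count (s + d) + conc F s (s + d) := by
      intro s
      simp [conc]
    rw [Finset.sum_congr rfl fun s _ => h s, Finset.sum_add_distrib, ih,
      sum_count_mul B fun s => B.count (s + d), Multiset.map_cons, Multiset.sum_cons]
    rfl

theorem cyclic {k l : ℕ} (hk : k ≠ 0) (F : Multiset (Multiset (ZMod v))) (hF : ∀ B ∈ F, IsBlock k B)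
    (hd : ∀ d : ZMod v, d ≠ 0 → (F.map fun B => dif B d).sum = l) : Has k l (ZMod v) := by
  refine ⟨∑ t : ZMod v, F.map (Multiset.map (· + t)), ?_, ?_⟩
  · intro B hB
    rw [Multiset.mem_sum] at hB
    obtain ⟨t, -, ht⟩ := hB
    rw [Multiset.mem_map] at ht
    obtain ⟨B', hB', rfl⟩ := ht
    exact isBlock_map hk (add_left_injective t) (hF B' hB')
  · intro i j hij
    rw [conc_sum]
    have h1 : ∀ t : ZMod v, conc (F.map (Multiset.map (· + t))) i j = conc F (i - t) (i - t + (j - i)) := by
      intro t
      have := conc_map (e := (· + t)) (add_left_injective t) F (i - t) (j - t)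
      simp only [sub_add_cancel] at this
      rw [this]
      congr 1
      ring
    rw [Finset.sum_congr rfl fun t _ => h1 t, ← hd (j - i) (sub_ne_zero.2 hij.symm), ← conc_shift]
    exact Fintype.sum_equiv (Equiv.subLeft i) _ _ fun t => rfl

/-- a base block with entries given by natural numbers -/
def blk (v : ℕ) (B : ℕ × ℕ × ℕ × ℕ) : Multiset (ZMod v) :=
  {(B.1 : ZMod v), (B.2.1 : ZMod v), (B.2.2.1 : ZMod v), (B.2.2.2 : ZMod v)}

def df (v x y : ℕ) : ℕ := (y + v - x) % v

theorem df_eq {x : ℕ} (hx : x < v) (y : ℕ) : ((df v x y : ℕ) : ZMod v) = (y : ZMod v) - x := by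
  rw [df, ZMod.natCast_mod, Nat.cast_sub (by omega), Nat.cast_add, ZMod.natCast_self, add_zero]

/-- list of the six differences -/
def dfs (v : ℕ) (B : ℕ × ℕ × ℕ × ℕ) : List ℕ :=
  [df v B.1 B.2.1, df v B.1 B.2.2.1, df v B.1 B.2.2.2, df v B.2.1 B.2.2.1, df v B.2.1 B.2.2.2,
    df v B.2.2.1 B.2.2.2]

theorem pair_dif {x y : ℕ} (hx : x < v) {d : ZMod v} (hd : d ≠ 0) :
    (if (y : ZMod v) = x + d then 1 else 0) + (if (x : ZMod v) = y + d then 1 else 0) =
      List.count d.val [df v x y] + List.count (v - d.val) [df v x y] := by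
  have hv : 0 < v := Nat.pos_of_ne_zero (NeZero.ne v)
  have h0 : d.val ≠ 0 := fun h => hd ((ZMod.val_eq_zero d).1 h)
  have hlt : d.val < v := ZMod.val_lt d
  have hl : df v x y < v := Nat.mod_lt _ hv
  have hval : ((y : ZMod v) - x).val = df v x y := by
    rw [← df_eq hx, ZMod.val_natCast, Nat.mod_eq_of_lt hl]
  have e1 : ((y : ZMod v) = x + d) ↔ df v x y = d.val := by
    constructor
    · intro h
      rw [← hval, h, add_sub_cancel_left]
    · intro h
      rw [← hval] at h
      have := ZMod.val_injective v h
      rw [← this]; ring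
  have e2 : ((x : ZMod v) = y + d) ↔ df v x y = v - d.val := by
    constructor
    · intro h
      have h1 : (y : ZMod v) - x = -d := by rw [h]; ring
      rw [← hval, h1, ZMod.neg_val, if_neg hd]
    · intro h
      have h1 : ((y : ZMod v) - x).val = (-d).val := by rw [hval, h, ZMod.neg_val, if_neg hd]
      have h2 := ZMod.val_injective v h1
      have h3 : (y : ZMod v) = x + -d := by rw [← h2]; ring
      rw [h3]; ring
  rw [List.count_singleton, List.count_singleton]
  simp only [e1, e2, beq_iff_eq]

theorem dif_blk {B : ℕ × ℕ × ℕ × ℕ} (h1 : B.1 < v) (h2 : B.2.1 < v) (h3 : B.2.2.1 < v)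
    {d : ZMod v} (hd : d ≠ 0) :
    dif (blk v B) d = List.count d.val (dfs v B) + List.count (v - d.val) (dfs v B) := by
  obtain ⟨p, q, r, s⟩ := B
  simp only at h1 h2 h3
  have hself : ∀ x : ZMod v, ¬ (x + d = x) := fun x h => hd (by simpa using h)
  have c : ∀ b : ZMod v, (blk v (p, q, r, s)).count b = (if b = p then 1 else 0) + ((if b = q then 1 else 0) +
      ((if b = r then 1 else 0) + (if b = s then 1 else 0))) := by
    intro b
    simp only [blk, Multiset.insert_eq_cons, Multiset.count_cons, Multiset.count_singleton]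
    ring
  have e : ∀ x y : ℕ, (if (x : ZMod v) + d = (y : ZMod v) then 1 else 0) = (if (y : ZMod v) = x + d then 1 else 0) := by
    intro x y
    simp only [eq_comm]
  have key : dif (blk v (p, q, r, s)) d =
      (((if (q : ZMod v) = p + d then 1 else 0) + (if (p : ZMod v) = q + d then 1 else 0)) +
      ((if (r : ZMod v) = p + d then 1 else 0) + (if (p : ZMod v) = r + d then 1 else 0)) +
      ((if (s : ZMod v) = p + d then 1 else 0) + (if (p : ZMod v) = s + d then 1 else 0)) +
      ((if (r : ZMod v) = q + d then 1 else 0) + (if (q : ZMod v) = r + d then 1 else 0)) +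
      ((if (s : ZMod v) = q + d then 1 else 0) + (if (q : ZMod v) = s + d then 1 else 0)) +
      ((if (s : ZMod v) = r + d then 1 else 0) + (if (r : ZMod v) = s + d then 1 else 0))) := by
    have : dif (blk v (p, q, r, s)) d = (blk v (p, q, r, s)).count ((p : ZMod v) + d) +
        ((blk v (p, q, r, s)).count ((q : ZMod v) + d) + ((blk v (p, q, r, s)).count ((r : ZMod v) + d) +
          (blk v (p, q, r, s)).count ((s : ZMod v) + d))) := by
      rw [dif]
      conv_lhs => rw [blk]
      simp [blk]
    rw [this, c, c, c, c]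
    simp only [hself, if_false, zero_add, add_zero, e]
    ring
  rw [key, pair_dif h1 hd, pair_dif h1 hd, pair_dif h1 hd, pair_dif h2 hd, pair_dif h2 hd, pair_dif h3 hd]
  simp only [dfs, List.count_cons, List.count_nil, List.count_singleton]
  ring

end Pool.Agent.Helper95.VB4
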