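import Pool.Agent.Helper95.VB4.Check

/-!
Kernel friendly checks of explicit designs with block size 4.
-/

set_option autoImplicit false

namespace Pool.Agent.Helper95.VB4

open Pool.Agent.Helper52.VB

/-- the four entries of a coded block -/
def ent (c : ℕ) : List ℕ := [c % 32, c / 32 % 32, c / 1024 % 32, c / 32768]

def ps (i j : ℕ) (L : List ℕ) : ℕ :=
  List.rec (motive := fun _ => ℕ) 0 (fun c _ ih => cnt i (ent c) * cnt j (ent c) + ih) L

def rowChk (l j : ℕ) (L : List ℕ) (n : ℕ) : Bool :=
  Nat.rec (motive := fun _ => Bool) true (fun m ih =>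
    Bool.rec (motive := fun _ => Bool) false ih (Nat.beq (ps m j L) l)) n

def allChk (l : ℕ) (L : List ℕ) (n : ℕ) : Bool :=
  Nat.rec (motive := fun _ => Bool) true (fun m ih =>
    Bool.rec (motive := fun _ => Bool) false ih (rowChk l m L m)) n

def okE (v : ℕ) (L : List ℕ) : Bool :=
  L.all fun c => (ent c).all (fun x => Nat.blt x v) && !(Nat.beq (c % 32) (c / 32768))

def exChk (v l : ℕ) (L : List ℕ) : Bool := okE v L && allChk l L v

theorem ps_eq (i j : ℕ) (L : List ℕ) :
    ps i j L = (L.map fun c => List.count i (ent c) * List.count j (ent c)).sum := by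
  induction L with
  | nil => rfl
  | cons c L ih =>
    have h : ps i j (c :: L) = cnt i (ent c) * cnt j (ent c) + ps i j L := rfl
    rw [h, ih, cnt_eq, cnt_eq, List.map_cons, List.sum_cons]

theorem rec_spec {f : ℕ → Bool} : ∀ {n : ℕ}, (Nat.rec (motive := fun _ => Bool) true (fun m ih =>
    Bool.rec (motive := fun _ => Bool) false ih (f m)) n : Bool) = true → ∀ m < n, f m = true := by
  intro n
  induction n with
  | zero => intro _ m hm; omega
  | succ n ih =>
    intro h m hm
    have h' : Bool.rec (motive := fun _ => Bool) false (Nat.rec (motive := fun _ => Bool) true (fun m ih =>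
      Bool.rec (motive := fun _ => Bool) false ih (f m)) n : Bool) (f n) = true := h
    cases hb : f n with
    | false => rw [hb] at h'; exact absurd (show false = true from h') (by decide)
    | true =>
      rw [hb] at h'
      rcases Nat.lt_or_ge m n with hmn | hmn
      · exact ih h' m hmn
      · have : m = n := by omega
        rw [this]; exact hb

theorem count_ofNat {v : ℕ} [NeZero v] (i : Fin v) : ∀ L : List ℕ, (∀ x ∈ L, x < v) →
    List.count i (L.map (Fin.ofNat v)) = List.count i.val L := by
  intro L
  induction L with
  | nil => intro _; rfl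
  | cons x L ih =>
    intro h
    have hx := h x List.mem_cons_self
    rw [List.map_cons, List.count_cons, List.count_cons, ih fun y hy => h y (List.mem_cons_of_mem _ hy)]
    have : (Fin.ofNat v x == i) = (x == i.val) := by
      rw [Bool.eq_iff_iff, beq_iff_eq, beq_iff_eq, Fin.ext_iff]
      simp [Fin.ofNat, Nat.mod_eq_of_lt hx]
    rw [this]

theorem has_of_exChk {v l : ℕ} (hv : v ≠ 0) (L : List ℕ) (h : exChk v l L = true) : Has 4 l (Fin v) := by
  have : NeZero v := ⟨hv⟩
  rw [exChk, Bool.and_eq_true] at h
  obtain ⟨hok, ha⟩ := h
  have hok' : ∀ c ∈ L, (∀ x ∈ ent c, x < v) ∧ c % 32 ≠ c / 32768 := by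
    intro c hc
    have := List.all_eq_true.1 hok c hc
    rw [Bool.and_eq_true, List.all_eq_true] at this
    refine ⟨fun x hx => ?_, fun he => ?_⟩
    · have := this.1 x hx
      rwa [Nat.blt_eq] at this
    · have h2 := this.2
      rw [Bool.not_eq_true', Bool.eq_false_iff] at h2
      exact h2 (Nat.beq_eq ▸ he)
  let blkF : ℕ → Multiset (Fin v) := fun c => (((ent c).map (Fin.ofNat v) : List (Fin v)) : Multiset (Fin v))
  have hcount : ∀ c ∈ L, ∀ i : Fin v, (blkF c).count i = List.count i.val (ent c) := by
    intro c hc i
    show Multiset.count i (((ent c).map (Fin.ofNat v) : List (Fin v)) : Multiset (Fin v)) = _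
    rw [Multiset.coe_count]
    exact count_ofNat i _ (hok' c hc).1
  have hconc : ∀ i j : Fin v, conc ((L.map blkF : List (Multiset (Fin v))) : Multiset (Multiset (Fin v))) i j =
      ps i.val j.val L := by
    intro i j
    rw [conc, Multiset.map_coe, Multiset.sum_coe, List.map_map, ps_eq]
    congr 1
    refine List.map_congr_left fun c hc => ?_
    show (blkF c).count i * (blkF c).count j = _
    rw [hcount c hc, hcount c hc]
  refine ⟨((L.map blkF : List (Multiset (Fin v))) : Multiset (Multiset (Fin v))), ?_, ?_⟩
  · intro B hB
    rw [Multiset.mem_coe, List.mem_map] at hB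
    obtain ⟨c, hc, rfl⟩ := hB
    obtain ⟨h1, h2⟩ := hok' c hc
    refine ⟨by simp [blkF, ent], ?_⟩
    intro x hx
    have m1 : Fin.ofNat v (c % 32) ∈ blkF c := by simp [blkF, ent]
    have m2 : Fin.ofNat v (c / 32768) ∈ blkF c := by simp [blkF, ent]
    rw [hx, Multiset.mem_replicate] at m1 m2
    have e := congrArg Fin.val (m1.2.trans m2.2.symm)
    simp only [Fin.ofNat] at e
    rw [Nat.mod_eq_of_lt (h1 _ (by simp [ent])), Nat.mod_eq_of_lt (h1 _ (by simp [ent]))] at e
    exact h2 e
  · have hrow : ∀ m < v, rowChk l m L m = true := rec_spec ha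
    have hcell : ∀ m < v, ∀ i < m, ps i m L = l := fun m hm i hi => by
      have := rec_spec (hrow m hm) i hi
      exact Nat.eq_of_beq_eq_true this
    intro i j hij
    rcases Nat.lt_trichotomy i.val j.val with h | h | h
    · rw [hconc]; exact hcell _ j.2 _ h
    · exact absurd (Fin.ext h) hij
    · rw [conc_comm, hconc]; exact hcell _ i.2 _ h

def e4 : List ℕ := [100384, 100384]

theorem e4_has : Has 4 2 (Fin 4) := has_of_exChk (by decide) e4 (by decide +kernel)

def e9 : List ℕ := [99328, 133153, 166978, 200803, 234628, 201888, 235713, 236608, 270464, 270497, 270530, 270563, 200768, 234593]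

theorem e9_has : Has 4 2 (Fin 9) := has_of_exChk (by decide) e9 (by decide +kernel)

def e10 : List ℕ := [264224, 298049, 168034, 200800, 233504, 201792, 235617, 269442, 303200, 300161, 302240, 268449, 302274, 269475, 303300]

theorem e10_has : Has 4 2 (Fin 10) := has_of_exChk (by decide) e10 (by decide +kernel)

def e12 : List ℕ := [364544, 267297, 301122, 334947, 234496, 200737, 234562, 200803, 301056, 334881, 364610, 267363, 335872, 369697, 335938, 369763, 332932, 366757, 269510, 302308, 303364, 337189, 371014, 371975, 100384, 100384]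

theorem e12_has : Has 4 2 (Fin 12) := has_of_exChk (by decide) e12 (by decide +kernel)

def e14 : List ℕ := [167936, 201761, 198720, 101408, 135233, 169058, 202883, 404480, 438305, 433218, 269411, 303236, 337061, 370886, 335072, 368897, 402722, 436547, 371940, 405765, 439590, 302305, 336130, 369955, 403780, 437605, 405734, 439552, 336928, 370753, 404578, 438403, 433316, 269509, 303296]

theorem e14_has : Has 4 2 (Fin 14) := has_of_exChk (by decide) e14 (by decide +kernel)

def e15 : List ℕ := [164864, 198689, 100416, 134241, 168066, 201891, 202880, 335073, 368898, 402723, 436548, 371941, 405766, 439584, 302306, 336131, 369956, 403781, 437606, 405728, 439553, 236739, 270464, 304289, 338114, 371808, 405633, 439458, 433380, 270565, 304390, 338208, 372033, 405858, 439683, 473312, 473345, 473378, 473411, 473444, 473477, 473510]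

theorem e15_has : Has 4 2 (Fin 15) := has_of_exChk (by decide) e15 (by decide +kernel)

def e20 : List ℕ := [99328, 133153, 166978, 200803, 234628, 268453, 302278, 269536, 303361, 304192, 331776, 365601, 399426, 433251, 467076, 500901, 530624, 564449, 598274, 632099, 338083, 371908, 405733, 439558, 473383, 507136, 540961, 574528, 608353, 642178, 534856, 568681, 602496, 636321, 473410, 507235, 541060, 574885, 608710, 642535, 472224, 506049, 539874, 573699, 607524, 641184, 633025, 370914, 404739, 438564, 472416, 506241, 540066, 573891, 607716, 641541, 640326, 601415, 635240, 438601, 639328, 569665, 603490, 637315, 505156, 538981, 572806, 606631, 640456, 605513]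

theorem e20_has : Has 4 2 (Fin 20) := has_of_exChk (by decide) e20 (by decide +kernel)

def f3 : List ℕ := [66560, 66592, 67616]

theorem f3_has : Has 4 5 (Fin 3) := has_of_exChk (by decide) f3 (by decide +kernel)

def f5 : List ℕ := [132096, 66592, 100417, 134242, 135264, 100352, 134177, 133184, 101408, 135233]

theorem f5_has : Has 4 5 (Fin 5) := has_of_exChk (by decide) f5 (by decide +kernel)

def f8 : List ℕ := [66560, 100385, 100416, 101408, 135266, 169056, 202784, 236609, 167968, 201793, 235618, 233568, 200768, 234593, 201856, 235681, 235650, 234627, 201856, 235681, 235650, 234627, 236544, 135201, 169026, 202851]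

theorem f8_has : Has 4 5 (Fin 8) := has_of_exChk (by decide) f8 (by decide +kernel)

end Pool.Agent.Helper95.VB4
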