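import Pool.Agent.Helper95.VB4.Glue

/-!
A truncated transversal design: `6 g + u` points, blocks with 6 and 7 points, groups with `g` and
`u` points.
-/

set_option autoImplicit false

namespace Pool.Agent.Helper95.VB4

open Pool.Agent.Helper52.VB

abbrev Pt (g u : ℕ) : Type := {p : Fin 7 × ZMod g // p.1 = 6 → p.2.val < u}

/-- the second coordinate of the point in the group `i` of the block `z` -/
def ln {g : ℕ} (z : ZMod g × ZMod g) (i : Fin 7) : ZMod g :=
  if i = 6 then z.2 else z.1 + (i.val : ZMod g) * z.2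

theorem coprime_small {g : ℕ} (hg : Nat.Coprime g 30) {n : ℕ} (h1 : 1 ≤ n) (h2 : n ≤ 5) :
    Nat.Coprime n g := by
  have c2 : Nat.Coprime 2 g := (Nat.Coprime.coprime_dvd_right (by norm_num) hg).symm
  have c3 : Nat.Coprime 3 g := (Nat.Coprime.coprime_dvd_right (by norm_num) hg).symm
  have c5 : Nat.Coprime 5 g := (Nat.Coprime.coprime_dvd_right (by norm_num) hg).symm
  have c4 : Nat.Coprime 4 g := by
    have := Nat.Coprime.mul_left c2 c2
    simpa using this
  interval_cases n
  · exact Nat.coprime_one_left g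
  · exact c2
  · exact c3
  · exact c4
  · exact c5

theorem ln_inj {g : ℕ} (hg : Nat.Coprime g 30) {i j : Fin 7} (hij : i < j) {z w : ZMod g × ZMod g}
    (h1 : ln z i = ln w i) (h2 : ln z j = ln w j) : z = w := by
  have hi6 : i ≠ 6 := by
    rintro rfl
    have := j.2
    have : (6 : Fin 7).val < j.val := hij
    have h6 : (6 : Fin 7).val = 6 := rfl
    omega
  rw [ln, ln, if_neg hi6, if_neg hi6] at h1
  have hy : z.2 = w.2 := by
    by_cases hj6 : j = 6
    · rwa [ln, ln, if_pos hj6, if_pos hj6] at h2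
    · rw [ln, ln, if_neg hj6, if_neg hj6] at h2
      have hj5 : j.val ≤ 5 := by
        have := j.2
        have h6 : (6 : Fin 7).val = 6 := rfl
        have : j.val ≠ 6 := fun h => hj6 (Fin.ext (h.trans h6.symm))
        omega
      have hlt : i.val < j.val := hij
      have hu : IsUnit (((j.val - i.val : ℕ)) : ZMod g) := by
        rw [ZMod.isUnit_iff_coprime]
        exact coprime_small hg (by omega) (by omega)
      have e : (((j.val - i.val : ℕ)) : ZMod g) * (z.2 - w.2) = 0 := by
        rw [Nat.cast_sub hlt.le]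
        linear_combination h2 - h1
      exact sub_eq_zero.1 (hu.mul_right_eq_zero.1 e)
  have hx : z.1 = w.1 := by
    rw [hy] at h1
    exact add_right_cancel h1
  exact Prod.ext hx hy

theorem ln_inj' {g : ℕ} (hg : Nat.Coprime g 30) {i j : Fin 7} (hij : i ≠ j) {z w : ZMod g × ZMod g}
    (h1 : ln z i = ln w i) (h2 : ln z j = ln w j) : z = w := by
  rcases lt_or_gt_of_ne hij with h | h
  · exact ln_inj hg h h1 h2
  · exact ln_inj hg h h2 h1

theorem ln_exists {g : ℕ} [NeZero g] (hg : Nat.Coprime g 30) {i j : Fin 7} (hij : i ≠ j) (a b : ZMod g) :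
    ∃ z : ZMod g × ZMod g, ln z i = a ∧ ln z j = b := by
  have hinj : Function.Injective fun z : ZMod g × ZMod g => (ln z i, ln z j) := by
    intro z w h
    exact ln_inj' hg hij (congrArg Prod.fst h) (congrArg Prod.snd h)
  obtain ⟨z, hz⟩ := (Finite.injective_iff_surjective.1 hinj) (a, b)
  exact ⟨z, congrArg Prod.fst hz, congrArg Prod.snd hz⟩

variable {g u : ℕ} [NeZero g]

/-- blocks and groups -/
def St (g u : ℕ) [NeZero g] : (ZMod g × ZMod g) ⊕ Fin 7 → Finset (Pt g u)
  | Sum.inl z => Finset.univ.filter fun p => p.1.2 = ln z p.1.1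
  | Sum.inr i => Finset.univ.filter fun p => p.1.1 = i

theorem mem_inl {z : ZMod g × ZMod g} {p : Pt g u} : p ∈ St g u (Sum.inl z) ↔ p.1.2 = ln z p.1.1 := by
  simp [St]

theorem mem_inr {i : Fin 7} {p : Pt g u} : p ∈ St g u (Sum.inr i) ↔ p.1.1 = i := by
  simp [St]

theorem st_unique (hg : Nat.Coprime g 30) (x y : Pt g u) (hxy : x ≠ y) :
    ∃! s, x ∈ St g u s ∧ y ∈ St g u s := by
  by_cases h : x.1.1 = y.1.1
  · refine ⟨Sum.inr x.1.1, ⟨mem_inr.2 rfl, mem_inr.2 h.symm⟩, ?_⟩
    rintro (z | j) ⟨h1, h2⟩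
    · rw [mem_inl] at h1 h2
      exfalso
      apply hxy
      apply Subtype.ext
      refine Prod.ext h ?_
      rw [h1, h2, h]
    · rw [mem_inr] at h1
      rw [h1]
  · obtain ⟨z, hz1, hz2⟩ := ln_exists hg h x.1.2 y.1.2
    refine ⟨Sum.inl z, ⟨mem_inl.2 hz1.symm, mem_inl.2 hz2.symm⟩, ?_⟩
    rintro (w | j) ⟨h1, h2⟩
    · rw [mem_inl] at h1 h2
      congr 1
      exact ln_inj' hg h (h1.symm.trans hz1.symm) (h2.symm.trans hz2.symm)
    · rw [mem_inr] at h1 h2
      exact absurd (h1.trans h2.symm) h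

/-- a full block -/
def eqv7 {z : ZMod g × ZMod g} (h : z.2.val < u) : Fin 7 ≃ St g u (Sum.inl z) where
  toFun i := ⟨⟨(i, ln z i), by intro h6; simp only at h6; subst h6; simpa [ln] using h⟩, by rw [mem_inl]⟩
  invFun p := p.1.1.1
  left_inv i := rfl
  right_inv p := by
    obtain ⟨⟨⟨i, a⟩, hp⟩, hm⟩ := p
    rw [mem_inl] at hm
    simp only at hm
    subst hm
    rfl

/-- a truncated block -/
def eqv6 {z : ZMod g × ZMod g} (h : ¬ z.2.val < u) : Fin 6 ≃ St g u (Sum.inl z) where
  toFun i := ⟨⟨(i.castSucc, ln z i.castSucc), by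
    intro h6
    simp only at h6
    have := congrArg Fin.val h6
    have h7 := i.2
    have h8 : (6 : Fin 7).val = 6 := rfl
    rw [Fin.val_castSucc, h8] at this
    omega⟩, by rw [mem_inl]⟩
  invFun p := ⟨p.1.1.1.val, by
    have h1 := p.1.1.1.2
    have h2 : p.1.1.1.val ≠ 6 := by
      intro h6
      have h6' : p.1.1.1 = 6 := Fin.ext h6
      have h3 := p.1.2 h6'
      have h4 := mem_inl.1 p.2
      rw [h4, ln, if_pos h6'] at h3
      exact h h3
    omega⟩
  left_inv i := rfl
  right_inv p := by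
    obtain ⟨⟨⟨i, a⟩, hp⟩, hm⟩ := p
    rw [mem_inl] at hm
    simp only at hm
    subst hm
    rfl

/-- a full group -/
def eqvg {i : Fin 7} (hi : i ≠ 6) : ZMod g ≃ St g u (Sum.inr i) where
  toFun a := ⟨⟨(i, a), fun h => absurd h hi⟩, by rw [mem_inr]⟩
  invFun p := p.1.1.2
  left_inv a := rfl
  right_inv p := by
    obtain ⟨⟨⟨j, a⟩, hp⟩, hm⟩ := p
    rw [mem_inr] at hm
    simp only at hm
    subst hm
    rfl

/-- the truncated group -/
def eqvu (hu : u ≤ g) : Fin u ≃ St g u (Sum.inr 6) where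
  toFun a := ⟨⟨(6, (a.val : ZMod g)), fun _ => by
    show ((a.val : ZMod g)).val < u
    rw [ZMod.val_natCast, Nat.mod_eq_of_lt (lt_of_lt_of_le a.2 hu)]
    exact a.2⟩, by rw [mem_inr]⟩
  invFun p := ⟨p.1.1.2.val, p.1.2 (mem_inr.1 p.2)⟩
  left_inv a := by
    apply Fin.ext
    show ((a.val : ZMod g)).val = a.val
    rw [ZMod.val_natCast, Nat.mod_eq_of_lt (lt_of_lt_of_le a.2 hu)]
  right_inv p := by
    obtain ⟨⟨⟨j, a⟩, hp⟩, hm⟩ := p
    rw [mem_inr] at hm
    simp only at hm
    subst hm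
    apply Subtype.ext
    apply Subtype.ext
    refine Prod.ext rfl ?_
    show ((a.val : ℕ) : ZMod g) = a
    exact ZMod.natCast_zmod_val a

theorem card_pt (hu : u ≤ g) : Fintype.card (Pt g u) = 6 * g + u := by
  have h1 : Fintype.card (Pt g u) = ∑ i : Fin 7, Fintype.card (St g u (Sum.inr i)) := by
    rw [← Finset.card_univ, Finset.card_eq_sum_card_fiberwise (f := fun p : Pt g u => p.1.1) (t := Finset.univ)
      (fun _ _ => Finset.mem_coe.2 (Finset.mem_univ _))]
    refine Finset.sum_congr rfl fun i _ => ?_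
    rw [Fintype.card_coe]
    rfl
  rw [h1, Fin.sum_univ_castSucc]
  have h2 : ∀ i : Fin 6, Fintype.card (St g u (Sum.inr i.castSucc)) = g := by
    intro i
    have hi : i.castSucc ≠ (6 : Fin 7) := by
      intro h6
      have := congrArg Fin.val h6
      have h7 := i.2
      have h8 : (6 : Fin 7).val = 6 := rfl
      rw [Fin.val_castSucc, h8] at this
      omega
    rw [← Fintype.card_congr (eqvg hi), ZMod.card]
  have h3 : Fintype.card (St g u (Sum.inr (Fin.last 6))) = u := by
    have := Fintype.card_congr (eqvu hu)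
    rw [Fintype.card_fin] at this
    exact this.symm
  rw [Finset.sum_congr rfl fun i _ => h2 i, h3]
  simp

theorem trans {k l : ℕ} (hk : k ≠ 0) (hg : Nat.Coprime g 30) (hu : u ≤ g) (h6 : Has k l (Fin 6))
    (h7 : Has k l (Fin 7)) (hG : Has k l (Fin g)) (hU : Has k l (Fin u)) : Has k l (Fin (6 * g + u)) := by
  have main : Has k l (Pt g u) := by
    refine glue hk (St g u) ?_ (st_unique hg)
    rintro (z | i)
    · by_cases h : z.2.val < u
      · exact h7.equiv hk (eqv7 h)
      · exact h6.equiv hk (eqv6 h)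
    · by_cases hi : i = 6
      · subst hi
        exact hU.equiv hk (eqvu hu)
      · exact (hG.equiv hk (ZMod.finEquiv g).toEquiv).equiv hk (eqvg hi)
  exact main.equiv hk (Fintype.equivFinOfCardEq (card_pt hu))

end Pool.Agent.Helper95.VB4
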