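import Pool.Agent.Helper95.VB4.DataA
import Pool.Agent.Helper95.VB4.DataB
import Pool.Agent.Helper95.VB4.Explicit
import Pool.Agent.Helper95.VB4.Trans

/-!
Existence of variance-balanced designs with block size 4 and concurrence 2, for all `v` except
2, 3, 5 and 8, and with concurrence 5, for all `v` except 2.
-/

set_option autoImplicit false

namespace Pool.Agent.Helper95.VB4

open Pool.Agent.Helper52.VB

/-- the exceptions -/
def Bad (v : ℕ) : Prop := v = 2 ∨ v = 3 ∨ v = 5 ∨ v = 8

instance (v : ℕ) : Decidable (Bad v) := by unfold Bad; infer_instance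

theorem has_data {L : List (ℕ × List ℕ)} (hL : (L.all fun p => chk p.1 p.2) = true) {v : ℕ} (hv : v ≠ 0)
    (h : v ∈ L.map Prod.fst) : Has 4 2 (Fin v) := by
  rw [List.mem_map] at h
  obtain ⟨p, hp, rfl⟩ := h
  exact has_of_chk hv p.2 (List.all_eq_true.1 hL p hp)

theorem cases_small : ∀ v < 492, v ≤ 1 ∨ Bad v ∨ v ∈ dataA.map Prod.fst ∨ v ∈ dataB.map Prod.fst ∨
    v ∈ [4, 9, 10, 12, 14, 15, 20] ∨ ∃ j : Fin 12, Nat.Coprime (v / 6 - j.val) 30 ∧ 7 ≤ v / 6 - j.val ∧
      v - 6 * (v / 6 - j.val) ≤ v / 6 - j.val ∧ ¬ Bad (v - 6 * (v / 6 - j.val)) := by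
  decide +kernel

theorem residues : ∀ a < 30, ∀ r < 6, ∃ j : Fin 12, Nat.Coprime (a + 30 - j.val) 30 ∧ ¬ Bad (r + 6 * j.val) := by
  decide +kernel

theorem cases_large (v : ℕ) (hv : 492 ≤ v) : ∃ j : Fin 12, Nat.Coprime (v / 6 - j.val) 30 ∧
    7 ≤ v / 6 - j.val ∧ v - 6 * (v / 6 - j.val) ≤ v / 6 - j.val ∧ ¬ Bad (v - 6 * (v / 6 - j.val)) := by
  obtain ⟨j, h1, h2⟩ := residues (v / 6 % 30) (Nat.mod_lt _ (by norm_num)) (v % 6) (Nat.mod_lt _ (by norm_num))
  have hj := j.2
  refine ⟨j, ?_, by omega, by omega, ?_⟩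
  · have e : v / 6 - j.val = (v / 6 % 30 + 30 - j.val) + 30 * (v / 6 / 30 - 1) := by omega
    rw [e]
    exact (Nat.coprime_add_mul_left_left _ _ _).2 h1
  · have e : v - 6 * (v / 6 - j.val) = v % 6 + 6 * j.val := by omega
    rw [e]
    exact h2

theorem exists_two : ∀ v : ℕ, ¬ Bad v → Has 4 2 (Fin v) := by
  intro v
  induction v using Nat.strong_induction_on with
  | _ v ih =>
    intro hv
    have step : (∃ j : Fin 12, Nat.Coprime (v / 6 - j.val) 30 ∧ 7 ≤ v / 6 - j.val ∧
        v - 6 * (v / 6 - j.val) ≤ v / 6 - j.val ∧ ¬ Bad (v - 6 * (v / 6 - j.val))) → Has 4 2 (Fin v) := by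
      rintro ⟨j, h1, h2, h3, h4⟩
      have hg : v / 6 - j.val ≠ 0 := by omega
      haveI : NeZero (v / 6 - j.val) := ⟨hg⟩
      have hbg : ¬ Bad (v / 6 - j.val) := by
        rintro (h | h | h | h) <;> first | omega | (rw [h] at h1; revert h1; decide)
      have e : v = 6 * (v / 6 - j.val) + (v - 6 * (v / 6 - j.val)) := by omega
      rw [e]
      exact trans (by norm_num) h1 h3 (ih 6 (by omega) (by decide)) (ih 7 (by omega) (by decide))
        (ih _ (by omega) hbg) (ih _ (by omega) h4)
    rcases Nat.lt_or_ge v 492 with hlt | hge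
    · rcases cases_small v hlt with h | h | h | h | h | h
      · haveI : Subsingleton (Fin v) := by
          rcases Nat.le_one_iff_eq_zero_or_eq_one.1 h with rfl | rfl <;> infer_instance
        exact has_subsingleton _ _ _
      · exact absurd h hv
      · refine has_data dataA_chk ?_ h
        rintro rfl
        revert h; decide
      · refine has_data dataB_chk ?_ h
        rintro rfl
        revert h; decide
      · simp only [List.mem_cons, List.not_mem_nil, or_false] at h
        rcases h with rfl | rfl | rfl | rfl | rfl | rfl | rfl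
        · exact e4_has
        · exact e9_has
        · exact e10_has
        · exact e12_has
        · exact e14_has
        · exact e15_has
        · exact e20_has
      · exact step h
    · exact step (cases_large v hge)

end Pool.Agent.Helper95.VB4
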