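import Pool.Agent.Helper95.VB4.Exists

/-!
Non-existence for the exceptions, and the spectrum for block size 4.
-/

set_option autoImplicit false

namespace Pool.Agent.Helper95.VB4

open Pool.Agent.Helper52.VB

variable {V : Type} [DecidableEq V] [Fintype V]

theorem point_sum (x : V) (D : Multiset (Multiset V)) (hD : ∀ B ∈ D, B.card = 4) :
    ∑ y ∈ Finset.univ.erase x, conc D x y = (D.map fun B => B.count x * (4 - B.count x)).sum := by
  induction D using Multiset.induction_on with
  | empty => simp [conc]
  | cons B D ih =>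
    have h : ∀ y : V, conc (B ::ₘ D) x y = B.count x * B.count y + conc D x y := by
      intro y; simp [conc]
    rw [Finset.sum_congr rfl fun y _ => h y, Finset.sum_add_distrib,
      ih fun B' hB' => hD B' (Multiset.mem_cons_of_mem hB'), Multiset.map_cons, Multiset.sum_cons,
      ← Finset.mul_sum]
    congr 2
    have h1 := sum_count B
    rw [hD B (Multiset.mem_cons_self B D), ← Finset.add_sum_erase _ _ (Finset.mem_univ x)] at h1
    omega

theorem split_sum (x : V) (D : Multiset (Multiset V)) (h2 : ∀ B ∈ D, B.count x ≤ 2) :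
    (D.map fun B => B.count x * (4 - B.count x)).sum =
      3 * (D.map fun B => if B.count x = 1 then 1 else 0).sum +
        4 * (D.map fun B => if B.count x = 2 then 1 else 0).sum := by
  induction D using Multiset.induction_on with
  | empty => simp
  | cons B D ih =>
    have hB := h2 B (Multiset.mem_cons_self B D)
    rw [Multiset.map_cons, Multiset.sum_cons, Multiset.map_cons, Multiset.sum_cons, Multiset.map_cons,
      Multiset.sum_cons, ih fun B' hB' => h2 B' (Multiset.mem_cons_of_mem hB')]
    interval_cases h : B.count x <;> simp <;> ring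

theorem mul_le_conc {D : Multiset (Multiset V)} {B : Multiset V} (hB : B ∈ D) (x y : V) :
    B.count x * B.count y ≤ conc D x y := by
  obtain ⟨D', rfl⟩ := Multiset.exists_cons_of_mem hB
  simp [conc]

theorem exists_other {B : Multiset V} (hB : IsBlock 4 B) (x : V) : ∃ y, y ≠ x ∧ 1 ≤ B.count y := by
  by_contra hcon
  push Not at hcon
  apply hB.2 x
  rw [Multiset.eq_replicate]
  refine ⟨hB.1, fun b hb => ?_⟩
  by_contra hne
  have := hcon b hne
  have h2 := Multiset.one_le_count_iff_mem.2 hb
  omega

theorem block_ineq {B : Multiset V} (hB : B.card = 4) (h2 : ∀ x y, x ≠ y → B.count x * B.count y ≤ 2) :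
    10 * ∑ x : V, (if B.count x = 2 then 1 else 0) ≤ ∑ x : V, B.count x * (4 - B.count x) := by
  by_cases h : ∃ x, B.count x = 2
  · obtain ⟨x, hx⟩ := h
    have h1 : ∀ y ∈ Finset.univ.erase x, B.count y ≤ 1 := by
      intro y hy
      have := h2 x y (Finset.ne_of_mem_erase hy).symm
      rw [hx] at this
      omega
    have h3 := sum_count B
    rw [hB, ← Finset.add_sum_erase _ _ (Finset.mem_univ x), hx] at h3
    have e1 : ∑ y ∈ Finset.univ.erase x, (if B.count y = 2 then 1 else 0) = 0 := by
      refine Finset.sum_eq_zero fun y hy => ?_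
      have := h1 y hy
      rw [if_neg (by omega)]
    have e2 : ∑ y ∈ Finset.univ.erase x, B.count y * (4 - B.count y) =
        3 * ∑ y ∈ Finset.univ.erase x, B.count y := by
      rw [Finset.mul_sum]
      refine Finset.sum_congr rfl fun y hy => ?_
      have := h1 y hy
      interval_cases h : B.count y <;> rfl
    rw [← Finset.add_sum_erase _ _ (Finset.mem_univ x), e1,
      ← Finset.add_sum_erase Finset.univ (fun x => B.count x * (4 - B.count x)) (Finset.mem_univ x), e2, hx]
    simp only [if_true]
    omega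
  · push Not at h
    have : ∑ x : V, (if B.count x = 2 then 1 else 0) = 0 :=
      Finset.sum_eq_zero fun x _ => if_neg (h x)
    rw [this]
    exact Nat.zero_le _

theorem total_ineq (D : Multiset (Multiset V)) (hD : ∀ B ∈ D, B.card = 4)
    (h2 : ∀ B ∈ D, ∀ x y, x ≠ y → B.count x * B.count y ≤ 2) :
    10 * ∑ x : V, (D.map fun B => if B.count x = 2 then 1 else 0).sum ≤
      ∑ x : V, (D.map fun B => B.count x * (4 - B.count x)).sum := by
  induction D using Multiset.induction_on with
  | empty => simp
  | cons B D ih =>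
    have ih' := ih (fun B' hB' => hD B' (Multiset.mem_cons_of_mem hB'))
      (fun B' hB' => h2 B' (Multiset.mem_cons_of_mem hB'))
    have hb := block_ineq (hD B (Multiset.mem_cons_self B D)) (h2 B (Multiset.mem_cons_self B D))
    simp only [Multiset.map_cons, Multiset.sum_cons, Finset.sum_add_distrib]
    omega

theorem not_two {v : ℕ} (hv : Bad v) {D : Multiset (Multiset (Fin v))} (hD : IsVB v 4 2 D) : False := by
  obtain ⟨hB, hc⟩ := hD
  have h2 : ∀ B ∈ D, ∀ x y, x ≠ y → B.count x * B.count y ≤ 2 := by
    intro B hBD x y hxy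
    rw [← hc x y hxy]
    exact mul_le_conc hBD x y
  have hle : ∀ x, ∀ B ∈ D, B.count x ≤ 2 := by
    intro x B hBD
    obtain ⟨y, hyx, hy⟩ := exists_other (hB B hBD) x
    have := h2 B hBD x y hyx.symm
    nlinarith
  have hp : ∀ x : Fin v, 3 * (D.map fun B => if B.count x = 1 then 1 else 0).sum +
      4 * (D.map fun B => if B.count x = 2 then 1 else 0).sum = 2 * (v - 1) := by
    intro x
    rw [← split_sum x D (hle x), ← point_sum x D fun B hBD => (hB B hBD).1,
      Finset.sum_congr rfl fun y hy => hc x y (Finset.ne_of_mem_erase hy).symm, Finset.sum_const,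
      Finset.card_erase_of_mem (Finset.mem_univ x), Finset.card_univ, Fintype.card_fin, smul_eq_mul,
      Nat.mul_comm]
  have ht := total_ineq D (fun B hBD => (hB B hBD).1) h2
  have hs : ∑ x : Fin v, (D.map fun B => B.count x * (4 - B.count x)).sum = v * (2 * (v - 1)) := by
    rw [Finset.sum_congr rfl fun x _ => (split_sum x D (hle x)).trans (hp x)]
    simp
  rw [hs] at ht
  have key : ∀ c : ℕ, (∀ x : Fin v, c ≤ (D.map fun B => if B.count x = 2 then 1 else 0).sum) →
      v * c ≤ ∑ x : Fin v, (D.map fun B => if B.count x = 2 then 1 else 0).sum := by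
    intro c hcx
    have := Finset.sum_le_sum (s := Finset.univ) fun (x : Fin v) _ => hcx x
    simpa using this
  rcases hv with rfl | rfl | rfl | rfl
  · have := hp 0
    omega
  · have := key 1 fun x => by have := hp x; omega
    omega
  · have := key 2 fun x => by have := hp x; omega
    omega
  · have := key 2 fun x => by have := hp x; omega
    omega

theorem not_five {D : Multiset (Multiset (Fin 2))} (hD : IsVB 2 4 5 D) : False := by
  obtain ⟨hB, hc⟩ := hD
  have h5 := hc 0 1 (by decide)
  have h34 : ∀ B ∈ D, B.count 0 * B.count 1 = 3 ∨ B.count 0 * B.count 1 = 4 := by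
    intro B hBD
    have h1 := sum_count B
    rw [(hB B hBD).1, Fin.sum_univ_two] at h1
    obtain ⟨y, hy, hy'⟩ := exists_other (hB B hBD) 0
    obtain ⟨z, hz, hz'⟩ := exists_other (hB B hBD) 1
    have hy1 : y = 1 := by omega
    have hz0 : z = 0 := by omega
    subst hy1 hz0
    have : B.count 0 = 1 ∨ B.count 0 = 2 ∨ B.count 0 = 3 := by omega
    rcases this with h | h | h
    · rw [h, show B.count 1 = 3 by omega]; left; rfl
    · rw [h, show B.count 1 = 2 by omega]; right; rfl
    · rw [h, show B.count 1 = 1 by omega]; left; rfl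
  have key : ∀ E : Multiset (Multiset (Fin 2)), (∀ B ∈ E, B.count 0 * B.count 1 = 3 ∨ B.count 0 * B.count 1 = 4) →
      conc E 0 1 = 0 ∨ conc E 0 1 = 3 ∨ conc E 0 1 = 4 ∨ 6 ≤ conc E 0 1 := by
    intro E
    induction E using Multiset.induction_on with
    | empty => intro _; left; simp [conc]
    | cons B E ih =>
      intro h
      have ih' := ih fun B' hB' => h B' (Multiset.mem_cons_of_mem hB')
      have hb := h B (Multiset.mem_cons_self B E)
      have e : conc (B ::ₘ E) 0 1 = B.count 0 * B.count 1 + conc E 0 1 := by simp [conc]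
      rw [e]
      omega
  have := key D h34
  omega

theorem mem_sgrp {l : ℕ} (h1 : 3 ≤ l) (h2 : l ≠ 5) : l ∈ Sgrp 4 := by
  have h3 : 3 ∈ Sgrp 4 := AddSubmonoid.subset_closure ⟨1, by norm_num, by norm_num, rfl⟩
  have h4 : 4 ∈ Sgrp 4 := AddSubmonoid.subset_closure ⟨2, by norm_num, by norm_num, rfl⟩
  have h : ∃ a b, l = a * 3 + b * 4 := by
    rcases (by omega : l % 3 = 0 ∨ l % 3 = 1 ∨ l % 3 = 2) with h | h | h
    · exact ⟨l / 3, 0, by omega⟩
    · exact ⟨(l - 4) / 3, 1, by omega⟩
    · exact ⟨(l - 8) / 3, 2, by omega⟩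
  obtain ⟨a, b, rfl⟩ := h
  have := AddSubmonoid.add_mem _ (AddSubmonoid.nsmul_mem _ h3 a) (AddSubmonoid.nsmul_mem _ h4 b)
  simpa using this

theorem has_sgrp {l : ℕ} (h : l ∈ Sgrp 4) (v : ℕ) : Has 4 l (Fin v) := by
  obtain ⟨D, hD, hD'⟩ := complete (V := Fin v) (k := 4) (l := l) 0 (by simp)
    (fun i j _ => ⟨l, h, by simp [conc_zero]⟩)
  exact ⟨D, hD, hD'⟩

theorem has_five {v : ℕ} (hv : v ≠ 2) : Has 4 5 (Fin v) := by
  by_cases hb : Bad v
  · rcases hb with rfl | rfl | rfl | rfl
    · exact absurd rfl hv
    · exact f3_has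
    · exact f5_has
    · exact f8_has
  · exact (exists_two v hb).add (has_sgrp (mem_sgrp (l := 3) (by norm_num) (by norm_num)) v)

/-- the spectrum for block size 4 and concurrence at least 2 -/
theorem spectrum (v l : ℕ) (hl : 2 ≤ l) :
    (∃ D : Multiset (Multiset (Fin v)), IsVB v 4 l D) ↔ ¬ (l = 2 ∧ Bad v) ∧ ¬ (l = 5 ∧ v = 2) := by
  constructor
  · rintro ⟨D, hD⟩
    refine ⟨?_, ?_⟩
    · rintro ⟨rfl, hv⟩
      exact not_two hv hD
    · rintro ⟨rfl, rfl⟩
      exact not_five hD
  · rintro ⟨h1, h2⟩
    by_cases hl2 : l = 2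
    · subst hl2
      exact exists_two v fun h => h1 ⟨rfl, h⟩
    · by_cases hl5 : l = 5
      · subst hl5
        exact has_five fun h => h2 ⟨rfl, h⟩
      · exact has_sgrp (mem_sgrp (by omega) hl5) v

end Pool.Agent.Helper95.VB4
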