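import Mathlib
import Pool.Agent.Helper52.VB3.Base

/-!
Variance-balanced designs of block size `k`: gluing along pairwise balanced structures.
-/

set_option autoImplicit false

namespace Pool.Agent.Helper95.VB4

open Pool.Agent.Helper52.VB

/-- There is a variance-balanced design with block size `k` and concurrence `l` on `V`. -/
def Has (k l : ℕ) (V : Type) [DecidableEq V] : Prop :=
  ∃ D : Multiset (Multiset V), (∀ B ∈ D, IsBlock k B) ∧ ∀ i j : V, i ≠ j → conc D i j = l

theorem isBlock_map {V W : Type} {k : ℕ} (hk : k ≠ 0) {e : V → W} (he : Function.Injective e)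
    {B : Multiset V} (hB : IsBlock k B) : IsBlock k (B.map e) := by
  refine ⟨by rw [Multiset.card_map]; exact hB.1, ?_⟩
  intro w hw
  have hne : B ≠ 0 := by
    rintro rfl
    exact hk (by simpa using hB.1.symm)
  obtain ⟨x, hx⟩ := Multiset.exists_mem_of_ne_zero hne
  apply hB.2 x
  rw [Multiset.eq_replicate]
  refine ⟨hB.1, fun b hb => he ?_⟩
  have h1 : e b ∈ B.map e := Multiset.mem_map_of_mem e hb
  have h2 : e x ∈ B.map e := Multiset.mem_map_of_mem e hx
  rw [hw, Multiset.mem_replicate] at h1 h2
  rw [h1.2, h2.2]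

theorem Has.equiv {k l : ℕ} (hk : k ≠ 0) {V W : Type} [DecidableEq V] [DecidableEq W]
    (h : Has k l V) (e : V ≃ W) : Has k l W := by
  obtain ⟨D, h1, h2⟩ := h
  refine ⟨D.map (Multiset.map e), ?_, ?_⟩
  · intro B hB
    rw [Multiset.mem_map] at hB
    obtain ⟨B', hB', rfl⟩ := hB
    exact isBlock_map hk e.injective (h1 B' hB')
  · intro i j hij
    have := conc_map e.injective D (e.symm i) (e.symm j)
    rw [e.apply_symm_apply, e.apply_symm_apply] at this
    rw [this]
    exact h2 _ _ fun h => hij (e.symm.injective h)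

theorem has_of_card {k l : ℕ} (hk : k ≠ 0) {V : Type} [DecidableEq V] [Fintype V] {n : ℕ}
    (h : Has k l (Fin n)) (hn : Fintype.card V = n) : Has k l V :=
  h.equiv hk (Fintype.equivFinOfCardEq hn).symm

theorem has_subsingleton (k l : ℕ) (V : Type) [DecidableEq V] [Subsingleton V] : Has k l V :=
  ⟨0, by simp, fun i j hij => absurd (Subsingleton.elim i j) hij⟩

theorem Has.add {k l m : ℕ} {V : Type} [DecidableEq V] (h : Has k l V) (h' : Has k m V) :
    Has k (l + m) V := by
  obtain ⟨D, h1, h2⟩ := h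
  obtain ⟨E, h3, h4⟩ := h'
  refine ⟨D + E, ?_, ?_⟩
  · intro B hB
    rcases Multiset.mem_add.1 hB with h | h
    · exact h1 B h
    · exact h3 B h
  · intro i j hij
    rw [conc_add, h2 i j hij, h4 i j hij]

/-- Gluing designs along a family of subsets in which every pair of points lies in exactly one. -/
theorem glue {k l : ℕ} (hk : k ≠ 0) {W : Type} [DecidableEq W] {ι : Type} [Fintype ι] [DecidableEq ι]
    (S : ι → Finset W)
    (h1 : ∀ i, Has k l (S i)) (h2 : ∀ x y : W, x ≠ y → ∃! i, x ∈ S i ∧ y ∈ S i) : Has k l W := by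
  choose D hD1 hD2 using h1
  refine ⟨∑ i, (D i).map (Multiset.map Subtype.val), ?_, ?_⟩
  · intro B hB
    rw [Multiset.mem_sum] at hB
    obtain ⟨i, -, hi⟩ := hB
    rw [Multiset.mem_map] at hi
    obtain ⟨B', hB', rfl⟩ := hi
    exact isBlock_map hk Subtype.val_injective (hD1 i B' hB')
  · intro x y hxy
    obtain ⟨i, ⟨hx, hy⟩, hu⟩ := h2 x y hxy
    rw [conc_sum, Finset.sum_eq_single i]
    · have := conc_map Subtype.val_injective (D i) ⟨x, hx⟩ ⟨y, hy⟩
      rw [this]
      exact hD2 i _ _ fun h => hxy (congrArg Subtype.val h)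
    · intro j _ hj
      by_cases hxj : x ∈ S j
      · have hyj : y ∉ S j := fun hyj => hj (hu j ⟨hxj, hyj⟩)
        exact conc_map_right (e := Subtype.val) (D j) (fun z hz => hyj (by rw [← hz]; exact z.2)) x
      · exact conc_map_left (e := Subtype.val) (D j) (fun z hz => hxj (by rw [← hz]; exact z.2)) y
    · intro h
      exact absurd (Finset.mem_univ i) h

end Pool.Agent.Helper95.VB4
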